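import Mathlib

/-!
# The merged 1-dependent 4-coloring is a 4-block factor of an i.i.d. process

Colors are `0, 1, 2, 3 : Fin 4` (for `1, 2, 3, 4`), and the merged colors are `0, 1, 2 : Fin 3`
(for `1, 2, ⋆`).

Construction. Let `U_i` be i.i.d. uniform on `[0,1]` and `b_i` i.i.d. fair bits, independent of
the `U_i`. Put `d_i = 1` if `U_{i+1}` is a local maximum, i.e. `U_i < U_{i+1}` and not
`U_{i+1} < U_{i+2}`, and let `b'_i = b_i` if `d_i = 1` and `b'_i = 1 - b_i` otherwise.
The process equal to `0` at `i` when `(b_i, b_{i+1}) = (1, 0)`, to `1` when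
`(b'_i, b'_{i+1}) = (1, 0)` (these two events are disjoint since `d_i d_{i+1} = 0`), and to `2`
otherwise, has the law of the merged coloring. In the file the bits are stored with a shift by
two sites so that the block map reads the four variables at `i, i+1, i+2, i+3`.

Proof. On the coloring side, the identity
`∑ a, B (x ++ a :: y) = 2 * choose (|x| + |y| + 2) (|x| + 1) * B x * B y` (`sum_insert`) gives
the probabilities of all patterns over the two colors `0, 1` and free letters; on the block
factor side they are computed by integrating out one variable after the other. Patterns over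
`0, 1` and free letters form a generating π-system.
-/

set_option autoImplicit false

open MeasureTheory ProbabilityTheory ENNReal

universe u

namespace Pool.Agent.Results.MP_885716_pr.FourBlock

/-- The number `B x` of proper buildings of a word `x` in the letters `Fin 4`:
`B [] = 1`, and for nonempty `x`, `B x` is the sum over all positions `i` of `B` of the word
`x` with the `i`-th letter removed if `x` is proper, and `0` if `x` is not proper. -/
def B : List (Fin 4) → ℕ
  | [] => 1
  | a :: l => if (a :: l).IsChain (· ≠ ·) then
      ∑ i : Fin (l.length + 1), B ((a :: l).eraseIdx i) else 0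
termination_by x => x.length
decreasing_by
  have := i.2
  simp only [List.length_eraseIdx, List.length_cons]
  split_ifs
  omega

/-- `Z n` is the sum of `B y` over all words `y` of length `n`. -/
def Z (n : ℕ) : ℕ := ∑ y : Fin n → Fin 4, B (List.ofFn y)

/-- the list of one-letter deletions -/
def dels {α : Type*} : List α → List (List α)
  | [] => []
  | a :: l => l :: (dels l).map (a :: ·)

/-- sum over all one letter deletions -/
def sd {α : Type*} (F : List α → ℕ) (x : List α) : ℕ := ((dels x).map F).sum

theorem sd_nil {α : Type*} (F : List α → ℕ) : sd F [] = 0 := rfl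

theorem sd_cons {α : Type*} (F : List α → ℕ) (a : α) (l : List α) :
    sd F (a :: l) = F l + sd (fun z => F (a :: z)) l := by
  simp [sd, dels, List.map_map, Function.comp_def]

theorem sd_append {α : Type*} (F : List α → ℕ) (x y : List α) :
    sd F (x ++ y) = sd (fun z => F (z ++ y)) x + sd (fun z => F (x ++ z)) y := by
  induction x generalizing F with
  | nil => simp [sd_nil]
  | cons a l ih =>
    rw [List.cons_append, sd_cons, ih, sd_cons]
    simp only [List.cons_append]
    ring

theorem sum_eraseIdx {α : Type*} (F : List α → ℕ) (x : List α) :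
    ∑ i : Fin x.length, F (x.eraseIdx i) = sd F x := by
  induction x generalizing F with
  | nil => simp [sd_nil]
  | cons a l ih =>
    rw [sd_cons, ← ih]
    simp only [List.length_cons]
    rw [Fin.sum_univ_succ]
    simp

theorem B_nil : B [] = 1 := by rw [B]

theorem B_of_chain {x : List (Fin 4)} (hx : x ≠ []) (h : x.IsChain (· ≠ ·)) : B x = sd B x := by
  cases x with
  | nil => exact absurd rfl hx
  | cons a l =>
    rw [B, if_pos h, ← sum_eraseIdx]
    rfl

theorem B_of_not_chain {x : List (Fin 4)} (h : ¬ x.IsChain (· ≠ ·)) : B x = 0 := by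
  cases x with
  | nil => exact absurd List.isChain_nil h
  | cons a l => rw [B, if_neg h]

theorem sd_congr {α : Type*} {F G : List α → ℕ} {x : List α}
    (h : ∀ z, z.length + 1 = x.length → F z = G z) : sd F x = sd G x := by
  induction x generalizing F G with
  | nil => rfl
  | cons a l ih =>
    rw [sd_cons, sd_cons, h l (by simp)]
    congr 1
    apply ih
    intro z hz
    apply h
    simp [hz]

theorem sd_mul {α : Type*} (F : List α → ℕ) (c : ℕ) (x : List α) :
    sd (fun z => c * F z) x = c * sd F x := by
  simp [sd, List.sum_map_mul_left]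

theorem sd_sum {α : Type*} (F : Fin 4 → List α → ℕ) (x : List α) :
    ∑ a, sd (F a) x = sd (fun z => ∑ a, F a z) x := by
  induction x generalizing F with
  | nil => simp [sd_nil]
  | cons a l ih =>
    simp_rw [sd_cons]
    rw [Finset.sum_add_distrib, ih]

/-- The letters that may be inserted between `x` and `y`. -/
def good (x y : List (Fin 4)) (a : Fin 4) : Prop :=
  (∀ p ∈ x.getLast?, p ≠ a) ∧ (∀ q ∈ y.head?, a ≠ q)

instance (x y : List (Fin 4)) (a : Fin 4) : Decidable (good x y a) := by
  unfold good; infer_instance

theorem chain_insert {x y : List (Fin 4)} (hx : x.IsChain (· ≠ ·)) (hy : y.IsChain (· ≠ ·))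
    (a : Fin 4) : (x ++ a :: y).IsChain (· ≠ ·) ↔ good x y a := by
  unfold good
  rw [List.isChain_append, List.isChain_cons]
  simp only [List.head?_cons]
  constructor
  · rintro ⟨-, ⟨h1, -⟩, h2⟩
    exact ⟨fun p hp => h2 p hp a rfl, h1⟩
  · rintro ⟨h1, h2⟩
    refine ⟨hx, ⟨h2, hy⟩, ?_⟩
    intro p hp q hq
    have : a = q := by simpa using hq
    subst this
    exact h1 p hp


theorem not_good_left (x' y : List (Fin 4)) (p a : Fin 4) (h : ¬ good (x' ++ [p]) y a)
    (z : List (Fin 4)) : B (z ++ p :: a :: y) = 0 := by
  apply B_of_not_chain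
  intro hc
  apply h
  rw [List.isChain_append, List.isChain_cons_cons, List.isChain_cons] at hc
  obtain ⟨-, ⟨h1, h2, -⟩, -⟩ := hc
  refine ⟨?_, h2⟩
  intro q hq
  have : q = p := by simpa using hq.symm
  subst this
  exact h1

theorem not_good_right (x y' : List (Fin 4)) (q a : Fin 4) (h : ¬ good x (q :: y') a)
    (z : List (Fin 4)) : B (x ++ a :: q :: z) = 0 := by
  apply B_of_not_chain
  intro hc
  apply h
  rw [List.isChain_append, List.isChain_cons_cons] at hc
  obtain ⟨-, ⟨h1, -⟩, h2⟩ := hc
  refine ⟨?_, ?_⟩
  · intro p hp
    exact h2 p hp a rfl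
  · intro r hr
    have : q = r := by simpa using hr
    subst this
    exact h1

theorem good_iff_left (x' y : List (Fin 4)) (p a : Fin 4) :
    good (x' ++ [p]) y a ↔ p ≠ a ∧ ∀ q ∈ y.head?, a ≠ q := by
  unfold good
  simp

theorem good_iff_right (x y' : List (Fin 4)) (q a : Fin 4) :
    good x (q :: y') a ↔ (∀ p ∈ x.getLast?, p ≠ a) ∧ a ≠ q := by
  unfold good
  simp

theorem B_double (x y : List (Fin 4)) (q : Fin 4) : B (x ++ q :: q :: y) = 0 := by
  apply B_of_not_chain
  intro hc
  rw [List.isChain_append, List.isChain_cons_cons] at hc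
  exact hc.2.1.1 rfl

theorem sd_zero {α : Type*} {F : List α → ℕ} (h : ∀ z, F z = 0) (x : List α) : sd F x = 0 := by
  have : F = fun _ => 0 := funext h
  subst this
  simp [sd]

/-- Removing a letter on the left of the inserted letter. -/
theorem left_part (x' y : List (Fin 4)) (p : Fin 4) :
    (∑ a, if good (x' ++ [p]) y a then sd (fun z => B (z ++ a :: y)) (x' ++ [p]) else 0)
      + B ((x' ++ [p]) ++ y) = ∑ a, sd (fun z => B (z ++ a :: y)) (x' ++ [p]) := by
  have h : B ((x' ++ [p]) ++ y) = ∑ a : Fin 4, if a = p then B ((x' ++ [p]) ++ y) else 0 := by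
    simp
  rw [h, ← Finset.sum_add_distrib]
  apply Finset.sum_congr rfl
  intro a _
  by_cases hg : good (x' ++ [p]) y a
  · rw [if_pos hg, if_neg, add_zero]
    intro hap
    exact ((good_iff_left x' y p a).1 hg).1 hap.symm
  · rw [if_neg hg, zero_add]
    rw [sd_append]
    have h1 : sd (fun z => B (z ++ [p] ++ a :: y)) x' = 0 := by
      apply sd_zero
      intro z
      rw [List.append_assoc]
      exact not_good_left x' y p a hg z
    rw [h1, zero_add, sd_cons, sd_nil, add_zero]
    split_ifs with hap
    · subst hap
      simp
    · rw [good_iff_left] at hg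
      push Not at hg
      obtain ⟨q, hq, haq⟩ := hg (fun h => hap h.symm)
      subst haq
      cases y with
      | nil => simp at hq
      | cons b y' =>
        have : b = a := by simpa using hq
        subst this
        rw [List.append_nil]
        exact (B_double x' y' b).symm

/-- Removing a letter on the right of the inserted letter. -/
theorem right_part (x y' : List (Fin 4)) (q : Fin 4) :
    (∑ a, if good x (q :: y') a then sd (fun z => B (x ++ a :: z)) (q :: y') else 0)
      + B (x ++ q :: y') = ∑ a, sd (fun z => B (x ++ a :: z)) (q :: y') := by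
  have h : B (x ++ q :: y') = ∑ a : Fin 4, if a = q then B (x ++ q :: y') else 0 := by
    simp
  rw [h, ← Finset.sum_add_distrib]
  apply Finset.sum_congr rfl
  intro a _
  by_cases hg : good x (q :: y') a
  · rw [if_pos hg, if_neg, add_zero]
    intro hap
    exact ((good_iff_right x y' q a).1 hg).2 hap
  · rw [if_neg hg, zero_add]
    rw [sd_cons]
    have h1 : sd (fun z => B (x ++ a :: q :: z)) y' = 0 := by
      apply sd_zero
      intro z
      exact not_good_right x y' q a hg z
    rw [h1, add_zero]
    split_ifs with hap
    · subst hap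
      rfl
    · rw [good_iff_right] at hg
      have hg' : ¬ ∀ p ∈ x.getLast?, p ≠ a := fun h => hg ⟨h, hap⟩
      push Not at hg'
      obtain ⟨p, hp, hpa⟩ := hg'
      subst hpa
      rcases List.eq_nil_or_concat' x with rfl | ⟨x', b, rfl⟩
      · simp at hp
      · have : b = p := by simpa using hp
        subst this
        rw [List.append_assoc]
        exact (B_double x' y' b).symm

theorem sum_good (x y : List (Fin 4)) :
    (∑ a, if good x y a then B (x ++ y) else 0) + (if x = [] then 0 else B (x ++ y))
      + (if y = [] then 0 else B (x ++ y)) = 4 * B (x ++ y) := by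
  rcases List.eq_nil_or_concat' x with rfl | ⟨x', p, rfl⟩
  · cases y with
    | nil => simp [good]
    | cons q y' =>
      have : ∀ a, good [] (q :: y') a ↔ a ≠ q := by
        intro a; rw [good_iff_right]; simp
      simp only [this]
      rw [Finset.sum_ite]
      have hc : (Finset.univ.filter (fun a : Fin 4 => a ≠ q)).card = 3 := by
        clear this; revert q; decide
      simp [hc]
      ring
  · cases y with
    | nil =>
      have : ∀ a, good (x' ++ [p]) [] a ↔ p ≠ a := by
        intro a; rw [good_iff_left]; simp
      simp only [this]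
      rw [Finset.sum_ite]
      have hc : (Finset.univ.filter (fun a : Fin 4 => p ≠ a)).card = 3 := by
        clear this; revert p; decide
      simp [hc]
      ring
    | cons q y' =>
      by_cases hpq : p = q
      · subst hpq
        have h0 : B ((x' ++ [p]) ++ p :: y') = 0 := by
          rw [List.append_assoc]
          exact B_double x' y' p
        simp only [h0]
        simp
      · have : ∀ a, good (x' ++ [p]) (q :: y') a ↔ (p ≠ a ∧ a ≠ q) := by
          intro a; rw [good_iff_left]; simp
        simp only [this]
        rw [Finset.sum_ite]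
        have hc : (Finset.univ.filter (fun a : Fin 4 => p ≠ a ∧ a ≠ q)).card = 2 := by
          clear this; revert p q; decide
        simp [hc]
        ring

/-- The key identity: summing over an inserted letter. -/
theorem sum_insert (N : ℕ) : ∀ x y : List (Fin 4), x.length + y.length = N →
    ∑ a, B (x ++ a :: y)
      = 2 * (x.length + y.length + 2).choose (x.length + 1) * (B x * B y) := by
  induction N using Nat.strong_induction_on with
  | _ N ih =>
  intro x y hN
  by_cases hx : x.IsChain (· ≠ ·)
  swap
  · rw [B_of_not_chain hx, zero_mul, mul_zero]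
    apply Finset.sum_eq_zero
    intro a _
    apply B_of_not_chain
    intro hc
    exact hx (List.isChain_append.1 hc).1
  by_cases hy : y.IsChain (· ≠ ·)
  swap
  · rw [B_of_not_chain hy, mul_zero, mul_zero]
    apply Finset.sum_eq_zero
    intro a _
    apply B_of_not_chain
    intro hc
    exact hy (List.isChain_cons.1 (List.isChain_append.1 hc).2.1).2
  have h1 : ∀ a, B (x ++ a :: y) = (if good x y a then sd (fun z => B (z ++ a :: y)) x else 0)
      + (if good x y a then B (x ++ y) else 0)
      + (if good x y a then sd (fun z => B (x ++ a :: z)) y else 0) := by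
    intro a
    split_ifs with hg
    · rw [B_of_chain (by simp) ((chain_insert hx hy a).2 hg), sd_append, sd_cons]
      ring
    · rw [B_of_not_chain]
      rw [chain_insert hx hy a]
      exact hg
  have hL : (∑ a, if good x y a then sd (fun z => B (z ++ a :: y)) x else 0)
      + (if x = [] then 0 else B (x ++ y))
      = if x = [] then 0 else 2 * (x.length + y.length + 1).choose (x.length) * (B x * B y) := by
    rcases List.eq_nil_or_concat' x with rfl | ⟨x', p, rfl⟩
    · simp [sd_nil]
    · rw [if_neg (by simp), if_neg (by simp), left_part, sd_sum]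
      have : sd (fun z => ∑ a, B (z ++ a :: y)) (x' ++ [p])
          = sd (fun z => (2 * ((x' ++ [p]).length + y.length + 1).choose ((x' ++ [p]).length)
            * B y) * B z) (x' ++ [p]) := by
        apply sd_congr
        intro z hz
        rw [ih (z.length + y.length) (by omega) z y rfl]
        have e1 : z.length + y.length + 2 = (x' ++ [p]).length + y.length + 1 := by omega
        rw [e1, hz]
        ring
      rw [this, sd_mul, ← B_of_chain (by simp) hx]
      ring
  have hR : (∑ a, if good x y a then sd (fun z => B (x ++ a :: z)) y else 0)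
      + (if y = [] then 0 else B (x ++ y))
      = if y = [] then 0 else
        2 * (x.length + y.length + 1).choose (x.length + 1) * (B x * B y) := by
    rcases y with _ | ⟨q, y'⟩
    · simp [sd_nil]
    · rw [if_neg (by simp), if_neg (by simp), right_part, sd_sum]
      have : sd (fun z => ∑ a, B (x ++ a :: z)) (q :: y')
          = sd (fun z => (2 * (x.length + (q :: y').length + 1).choose (x.length + 1)
            * B x) * B z) (q :: y') := by
        apply sd_congr
        intro z hz
        rw [ih (x.length + z.length) (by omega) x z rfl]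
        have e1 : x.length + z.length + 2 = x.length + (q :: y').length + 1 := by omega
        rw [e1]
        ring
      rw [this, sd_mul, ← B_of_chain (by simp) hy]
      ring
  have hM := sum_good x y
  have hT : ∑ a, B (x ++ a :: y) =
      (∑ a, if good x y a then sd (fun z => B (z ++ a :: y)) x else 0)
      + (∑ a, if good x y a then B (x ++ y) else 0)
      + (∑ a, if good x y a then sd (fun z => B (x ++ a :: z)) y else 0) := by
    rw [← Finset.sum_add_distrib, ← Finset.sum_add_distrib]
    exact Finset.sum_congr rfl (fun a _ => h1 a)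
  rw [hT]
  rcases x with _ | ⟨a1, x1⟩
  · rcases y with _ | ⟨a2, y1⟩
    · simp at hL hR hM ⊢
      rw [hM]
      simp [sd_nil, B_nil]
    · simp only [if_true, List.nil_append, reduceCtorEq, if_false, List.length_nil, zero_add,
        Nat.choose_zero_right, Nat.choose_one_right, B_nil, one_mul] at hL hR hM ⊢
      rw [show (a2 :: y1).length + 1 + 1 = (a2 :: y1).length + 2 from rfl]
      nlinarith
  · rcases y with _ | ⟨a2, y1⟩
    · simp only [if_true, List.append_nil, reduceCtorEq, if_false, List.length_nil, add_zero,
        B_nil, mul_one] at hL hR hM ⊢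
      rw [Nat.choose_succ_self_right] at hL
      rw [Nat.choose_succ_self_right]
      nlinarith
    · simp only [reduceCtorEq, if_false] at hL hR hM ⊢
      have hch := Nat.choose_succ_succ ((a1 :: x1).length + (a2 :: y1).length + 1)
        ((a1 :: x1).length)
      simp only [Nat.succ_eq_add_one] at hch
      rw [show (a1 :: x1).length + (a2 :: y1).length + 2
        = (a1 :: x1).length + (a2 :: y1).length + 1 + 1 from rfl, hch]
      nlinarith


/-- the color corresponding to a Boolean -/
def col (c : Bool) : Fin 4 := if c then 1 else 0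

theorem col_inj {a b : Bool} : col a = col b ↔ a = b := by
  revert a b; decide

/-- Sum of `B` over all words starting with `p` and continuing along the pattern `w`. -/
def SumB : List (Fin 4) → List (Option Bool) → ℕ
  | p, [] => B p
  | p, some c :: w => SumB (p ++ [col c]) w
  | p, none :: w => ∑ a, SumB (p ++ [a]) w

theorem SumB_insert (w : List (Option Bool)) : ∀ x q : List (Fin 4),
    ∑ a, SumB (x ++ a :: q) w
      = 2 * (x.length + q.length + w.length + 2).choose (x.length + 1) * (B x * SumB q w) := by
  induction w with
  | nil =>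
    intro x q
    simp only [SumB]
    exact sum_insert _ x q rfl
  | cons b w ih =>
    intro x q
    cases b with
    | some c =>
      simp only [SumB]
      have := ih x (q ++ [col c])
      simp only [List.append_assoc, List.cons_append]
      rw [this]
      congr 3
      simp only [List.length_append, List.length_cons, List.length_nil]
      ring
    | none =>
      simp only [SumB]
      rw [Finset.sum_comm]
      simp only [List.append_assoc, List.cons_append]
      have : ∀ b, ∑ a, SumB (x ++ a :: (q ++ [b])) w
          = 2 * (x.length + q.length + (none :: w).length + 2).choose (x.length + 1)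
            * B x * SumB (q ++ [b]) w := by
        intro b
        rw [ih x (q ++ [b])]
        have e : x.length + (q ++ [b]).length + w.length + 2
          = x.length + q.length + ((none : Option Bool) :: w).length + 2 := by
          simp only [List.length_append, List.length_cons, List.length_nil]
          ring
        rw [e]
        ring
      rw [Finset.sum_congr rfl (fun b _ => this b), ← Finset.mul_sum]
      ring

theorem SumB_none (x : List (Fin 4)) (w : List (Option Bool)) :
    SumB x (none :: w) = 2 * (x.length + w.length + 2).choose (x.length + 1)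
      * (B x * SumB [] w) := by
  have := SumB_insert w x []
  simpa [SumB] using this

theorem SumB_append_ofFn (n : ℕ) : ∀ p : List (Fin 4),
    ∑ y : Fin n → Fin 4, B (p ++ List.ofFn y) = SumB p (List.replicate n none) := by
  induction n with
  | zero => intro p; simp [SumB]
  | succ n ih =>
    intro p
    rw [List.replicate_succ, SumB, ← (Fin.consEquiv (fun _ => Fin 4)).sum_comp,
      Fintype.sum_prod_type]
    apply Finset.sum_congr rfl
    intro a _
    rw [← ih]
    apply Finset.sum_congr rfl
    intro y _
    simp [Fin.consEquiv, List.ofFn_succ]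

theorem Z_eq' (n : ℕ) : Z n = SumB [] (List.replicate n none) := by
  rw [← SumB_append_ofFn]
  simp [Z]

theorem Z_eq (n : ℕ) : Z n = 2 ^ n * (n + 1).factorial := by
  rw [Z_eq']
  induction n with
  | zero => simp [SumB, B_nil]
  | succ n ih =>
    rw [List.replicate_succ, SumB_none, ih, B_nil]
    simp only [List.length_nil, List.length_replicate, zero_add, Nat.choose_one_right]
    rw [Nat.factorial_succ (n + 1)]
    ring

/-- alternating words in the letters `0`, `1` with last letter `col c` -/
def alt : ℕ → Bool → List (Fin 4)
  | 0, _ => []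
  | k + 1, c => alt k (!c) ++ [col c]

theorem alt_length (k : ℕ) (c : Bool) : (alt k c).length = k := by
  induction k generalizing c with
  | zero => rfl
  | succ k ih => simp [alt, ih]

theorem alt_chain (k : ℕ) (c : Bool) : (alt k c).IsChain (· ≠ ·) := by
  induction k generalizing c with
  | zero => simp [alt]
  | succ k ih =>
    rw [alt, List.isChain_append]
    refine ⟨ih _, by simp, ?_⟩
    intro p hp q hq
    cases k with
    | zero => simp [alt] at hp
    | succ k =>
      simp [alt] at hp hq
      subst hp hq
      rw [Ne, col_inj]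
      simp

theorem sd_alt (k : ℕ) : ∀ (c : Bool) (y : List (Fin 4)),
    sd (fun z => B (z ++ col (!c) :: y)) (alt (k + 1) c) = B (alt k c ++ col (!c) :: y) := by
  induction k with
  | zero =>
    intro c y
    simp [alt, sd_cons, sd_nil]
  | succ k ih =>
    intro c y
    rw [alt, sd_append, sd_cons, sd_nil, add_zero]
    have h1 : B (alt (k + 1) (!c) ++ [] ++ col (!c) :: y) = 0 := by
      rw [alt, List.append_nil, List.append_assoc]
      exact B_double _ _ _
    rw [h1, add_zero]
    have h2 := ih (!c) (col (!c) :: y)
    simp only [Bool.not_not, List.append_assoc, List.cons_append, List.nil_append] at h2 ⊢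
    rw [h2]
    simp [alt]

theorem B_alt (k : ℕ) : ∀ c : Bool, B (alt (k + 1) c) = 2 ^ k := by
  induction k with
  | zero =>
    intro c
    rw [B_of_chain (by simp [alt]) (alt_chain _ _)]
    simp [alt, sd_cons, sd_nil, B_nil]
  | succ k ih =>
    intro c
    rw [B_of_chain (by simp [alt]) (alt_chain _ _), alt, sd_append, sd_cons, sd_nil, add_zero,
      List.append_nil, ih]
    have h2 := sd_alt k (!c) []
    simp only [Bool.not_not] at h2
    rw [h2]
    have : alt k (!c) ++ [col c] = alt (k + 1) c := rfl
    rw [this, ih]
    ring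

/-- The recursion data. `(R w).1` is the probability of the pattern `w`, and `(R w).2 c` records
the length of the initial run of `w` continuing a run with last letter `c`, and the remaining
weight. -/
noncomputable def R : List (Option Bool) → ℝ × (Bool → ℕ × ℝ)
  | [] => (1, fun _ => (0, 1 / 2))
  | none :: v => ((R v).1, fun _ => (0, (R v).1 / 2))
  | some a :: w => (((R w).2 a).2 * 2 ^ ((R w).2 a).1 / (((R w).2 a).1 + 2).factorial,
      fun c => if a = c then (0, 0) else (((R w).2 a).1 + 1, ((R w).2 a).2 / 2))

theorem SumB_chain_zero (w : List (Option Bool)) : ∀ p : List (Fin 4), ¬ p.IsChain (· ≠ ·) →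
    SumB p w = 0 := by
  induction w with
  | nil => intro p hp; exact B_of_not_chain hp
  | cons b w ih =>
    intro p hp
    have key : ∀ a, ¬ (p ++ [a]).IsChain (· ≠ ·) := by
      intro a h
      exact hp (List.isChain_append.1 h).1
    cases b with
    | some c => exact ih _ (key _)
    | none =>
      rw [SumB]
      exact Finset.sum_eq_zero (fun a _ => ih _ (key _))

theorem SumB_formula (w : List (Option Bool)) :
    ((SumB [] w : ℕ) : ℝ) = (R w).1 * (2 ^ w.length * (w.length + 1).factorial) ∧
    ∀ (k : ℕ) (c : Bool), ((SumB (alt (k + 1) c) w : ℕ) : ℝ)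
      = ((R w).2 c).2 * 2 ^ ((R w).2 c).1 / (k + 1 + ((R w).2 c).1 + 1).factorial
        * (2 ^ (k + 1 + w.length) * (k + 1 + w.length + 1).factorial) := by
  induction w with
  | nil =>
    constructor
    · simp [SumB, B_nil, R]
    · intro k c
      simp only [SumB, B_alt, R, List.length_nil, add_zero, pow_zero]
      have : ((k + 1 + 1).factorial : ℝ) ≠ 0 := by positivity
      field_simp
      push_cast
      ring
  | cons b w ih =>
    obtain ⟨ih1, ih2⟩ := ih
    cases b with
    | none =>
      constructor
      · rw [SumB_none, B_nil]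
        push_cast
        rw [ih1]
        simp only [R, List.length_nil, List.length_cons, zero_add, Nat.choose_one_right]
        rw [Nat.factorial_succ (w.length + 1)]
        push_cast
        ring
      · intro k c
        rw [SumB_none, B_alt, alt_length]
        push_cast
        rw [ih1]
        simp only [R, List.length_cons, add_zero, pow_zero]
        have h1 : ((k + 1 + 1).factorial : ℝ) ≠ 0 := by positivity
        have h2 : ((w.length + 1).factorial : ℝ) ≠ 0 := by positivity
        have h3 := Nat.choose_mul_factorial_mul_factorial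
          (show k + 1 + 1 ≤ k + 1 + w.length + 2 by omega)
        have e1 : k + 1 + w.length + 2 - (k + 1 + 1) = w.length + 1 := by omega
        rw [e1] at h3
        have e2 : k + 1 + (w.length + 1) + 1 = k + 1 + w.length + 2 := by ring
        rw [e2, ← h3]
        push_cast
        field_simp
        ring
    | some a =>
      constructor
      · have h := ih2 0 a
        simp only [alt, List.nil_append, zero_add] at h
        simp only [SumB, List.nil_append]
        rw [h]
        simp only [R, List.length_cons]
        rw [show 1 + ((R w).2 a).1 + 1 = ((R w).2 a).1 + 2 by ring,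
          show 1 + w.length = w.length + 1 by ring]
      · intro k c
        by_cases hac : a = c
        · subst hac
          simp only [SumB, R, if_true]
          rw [SumB_chain_zero]
          · simp
          · intro h
            rw [alt, List.append_assoc, List.isChain_append] at h
            simp at h
        · have hca : c = !a := by
            revert a c; decide
          subst hca
          simp only [SumB, R, if_neg hac]
          have : alt (k + 1) (!a) ++ [col a] = alt (k + 1 + 1) a := rfl
          rw [this, ih2 (k + 1) a]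
          simp only [List.length_cons]
          rw [show k + 1 + 1 + ((R w).2 a).1 + 1 = k + 1 + (((R w).2 a).1 + 1) + 1 by ring,
            show k + 1 + 1 + w.length = k + 1 + (w.length + 1) by ring]
          rw [pow_succ]
          ring

/-- Probability (density form) that a continued run has no local peak. -/
noncomputable def N (k : ℕ) (h : Bool) (y : ℝ) : ℝ :=
  if h then (1 - y) ^ k / k.factorial else ((1 - y) ^ k + (1 + y) ^ k) / (2 * k.factorial)

theorem N_true (k : ℕ) (y : ℝ) : N k true y = (1 - y) ^ k / k.factorial := by simp [N]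

theorem N_false (k : ℕ) (y : ℝ) :
    N k false y = ((1 - y) ^ k + (1 + y) ^ k) / (2 * k.factorial) := by simp [N]

theorem N_zero (h : Bool) (y : ℝ) : N 0 h y = 1 := by
  cases h
  · rw [N_false]; norm_num
  · rw [N_true]; norm_num

theorem N_cont (k : ℕ) (h : Bool) : Continuous (N k h) := by
  cases h
  · have : N k false = fun y : ℝ => ((1 - y) ^ k + (1 + y) ^ k) / (2 * k.factorial) :=
      funext (N_false k)
    rw [this]; fun_prop
  · have : N k true = fun y : ℝ => (1 - y) ^ k / k.factorial := funext (N_true k)
    rw [this]; fun_prop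

theorem N_nonneg (k : ℕ) (h : Bool) {y : ℝ} (hy : y ∈ Set.Icc (0 : ℝ) 1) : 0 ≤ N k h y := by
  have h1 : 0 ≤ 1 - y := by linarith [hy.2]
  have h2 : 0 ≤ 1 + y := by linarith [hy.1]
  cases h
  · rw [N_false]; positivity
  · rw [N_true]; positivity

theorem N_int_true (k : ℕ) (y : ℝ) : ∫ z in y..1, N k true z = N (k + 1) true y := by
  have hd : ∀ z : ℝ, HasDerivAt (fun z : ℝ => -(1 - z) ^ (k + 1) / (k + 1).factorial) (N k true z) z := by
    intro z
    have h1 : HasDerivAt (fun z : ℝ => 1 - z) (-1) z := by
      simpa using (hasDerivAt_id z).const_sub 1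
    have h2 := ((h1.fun_pow (k + 1)).fun_neg).div_const ((k + 1).factorial : ℝ)
    refine h2.congr_deriv ?_
    rw [N_true, Nat.factorial_succ]
    have : (k.factorial : ℝ) ≠ 0 := by positivity
    push_cast
    field_simp
  rw [intervalIntegral.integral_eq_sub_of_hasDerivAt (fun z _ => hd z)
    ((N_cont k true).intervalIntegrable _ _), N_true]
  simp
  ring

theorem N_int_false (k : ℕ) (y : ℝ) : (∫ z in (0:ℝ)..y, N k false z) + ∫ z in y..1, N k true z
    = N (k + 1) false y := by
  have hd : ∀ z : ℝ, HasDerivAt (fun z : ℝ => ((1 + z) ^ (k + 1) - (1 - z) ^ (k + 1))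
      / (2 * (k + 1).factorial)) (N k false z) z := by
    intro z
    have h1 : HasDerivAt (fun z : ℝ => 1 - z) (-1) z := by
      simpa using (hasDerivAt_id z).const_sub 1
    have h1' : HasDerivAt (fun z : ℝ => 1 + z) 1 z := by
      simpa using (hasDerivAt_id z).const_add 1
    have h2 := ((h1'.fun_pow (k + 1)).fun_sub (h1.fun_pow (k + 1))).div_const
      (2 * (k + 1).factorial : ℝ)
    refine h2.congr_deriv ?_
    rw [N_false, Nat.factorial_succ]
    have : (k.factorial : ℝ) ≠ 0 := by positivity
    push_cast
    field_simp
    simp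
    ring
  rw [N_int_true, intervalIntegral.integral_eq_sub_of_hasDerivAt (fun z _ => hd z)
    ((N_cont k false).intervalIntegrable _ _), N_true, N_false]
  have : ((k + 1).factorial : ℝ) ≠ 0 := by positivity
  field_simp
  simp
  ring

theorem N_int_full (k : ℕ) : ∫ z in (0:ℝ)..1, N k false z = 2 ^ k / (k + 1).factorial := by
  have h := N_int_false k 1
  rw [intervalIntegral.integral_same, add_zero, N_false] at h
  rw [h]
  simp
  rw [pow_succ]
  have : ((k + 1).factorial : ℝ) ≠ 0 := by positivity
  field_simp
  norm_num




theorem R_nonneg (w : List (Option Bool)) : 0 ≤ (R w).1 ∧ ∀ c, 0 ≤ ((R w).2 c).2 := by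
  induction w with
  | nil => simp [R]
  | cons b w ih =>
    obtain ⟨ih1, ih2⟩ := ih
    cases b with
    | none =>
      simp only [R]
      exact ⟨ih1, fun _ => by positivity⟩
    | some a =>
      simp only [R]
      have := ih2 a
      refine ⟨by positivity, fun c => ?_⟩
      split_ifs
      · exact le_rfl
      · simp only; positivity

/-- closed form for the pattern probabilities, given the past -/
noncomputable def F : Option Bool → List (Option Bool) → Bool → ℝ → ℝ
  | some c, w, h, y => ((R w).2 c).2 * N ((R w).2 c).1 h y
  | none, [], _, _ => 1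
  | none, none :: v, _, _ => (R v).1
  | none, some a :: w, _, y => 1 / 2 * (((R w).2 a).2 * N (((R w).2 a).1 + 1) false y)

theorem F_cont (c : Option Bool) (w : List (Option Bool)) (h : Bool) : Continuous (F c w h) := by
  cases c with
  | some c =>
    have : F (some c) w h = fun y => ((R w).2 c).2 * N ((R w).2 c).1 h y := by
      funext y; rw [F]
    rw [this]
    exact continuous_const.mul (N_cont _ _)
  | none =>
    rcases w with _ | ⟨_ | a, w⟩
    · have : F none [] h = fun y => 1 := by funext y; rw [F]
      rw [this]; exact continuous_const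
    · have : F none (none :: w) h = fun y => (R w).1 := by funext y; rw [F]
      rw [this]; exact continuous_const
    · have : F none (some a :: w) h
          = fun y => 1 / 2 * (((R w).2 a).2 * N (((R w).2 a).1 + 1) false y) := by
        funext y; rw [F]
      rw [this]
      exact continuous_const.mul (continuous_const.mul (N_cont _ _))

theorem F_nonneg (c : Option Bool) (w : List (Option Bool)) (h : Bool) {y : ℝ}
    (hy : y ∈ Set.Icc (0 : ℝ) 1) : 0 ≤ F c w h y := by
  cases c with
  | some c =>
    rw [F]
    exact mul_nonneg ((R_nonneg w).2 c) (N_nonneg _ _ hy)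
  | none =>
    rcases w with _ | ⟨_ | a, w⟩
    · rw [F]; norm_num
    · rw [F]; exact (R_nonneg w).1
    · rw [F]
      exact mul_nonneg (by norm_num) (mul_nonneg ((R_nonneg w).2 a) (N_nonneg _ _ hy))

theorem F_none_indep (w : List (Option Bool)) (h : Bool) : F none w h = F none w false := by
  funext y
  rcases w with _ | ⟨_ | a, w⟩ <;> rw [F, F]

theorem F_int (w : List (Option Bool)) : ∫ z in (0:ℝ)..1, F none w false z = (R w).1 := by
  rcases w with _ | ⟨_ | a, w⟩
  · simp [F, R]
  · simp [F, R]
  · simp only [F, R]
    rw [intervalIntegral.integral_const_mul, intervalIntegral.integral_const_mul, N_int_full]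
    rw [pow_succ]
    rw [show ((R w).2 a).1 + 1 + 1 = ((R w).2 a).1 + 2 by ring]
    ring

theorem F_int' (w : List (Option Bool)) (y : ℝ) :
    (∫ z in (0:ℝ)..y, F none w false z) + ∫ z in y..1, F none w true z = (R w).1 := by
  rw [F_none_indep w true, intervalIntegral.integral_add_adjacent_intervals
    ((F_cont _ _ _).intervalIntegrable _ _) ((F_cont _ _ _).intervalIntegrable _ _), F_int]

/-- The bit used for the color `x` at a site, given the peak indicator `d` and the fair bit `β`. -/
def bit (x d β : Bool) : Bool := if x && !d then !β else β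

/-- Compatibility of the bits at a site with the letters (`c` at the previous site, `a` at this
site) of the pattern. -/
def okB (c a : Option Bool) (d β : Bool) : Bool :=
  (match c with | none => true | some x => !(bit x d β)) &&
    (match a with | none => true | some x => bit x d β)

/-- probability weight of `okB`. -/
noncomputable def wr (c a : Option Bool) (d : Bool) : ℝ :=
  1 / 2 * (if okB c a d false then 1 else 0) + 1 / 2 * (if okB c a d true then 1 else 0)

theorem wr_nonneg (c a : Option Bool) (d : Bool) : 0 ≤ wr c a d := by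
  unfold wr
  positivity

theorem F_nil (c : Option Bool) (h d : Bool) (y : ℝ) : F c [] h y = wr c none d := by
  rcases c with _ | c
  · simp only [F, wr, okB]; norm_num
  · simp only [F, R, N_zero, wr, okB]
    cases c <;> cases d <;> norm_num [bit]

theorem F_cons (c a : Option Bool) (w : List (Option Bool)) (h : Bool) (y : ℝ) :
    F c (a :: w) h y = wr c a h * (∫ z in (0:ℝ)..y, F a w false z)
      + wr c a false * ∫ z in y..1, F a w true z := by
  rcases a with _ | a
  · -- the letter is free
    have h1 : ∀ d, wr c none d = wr c none false := by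
      intro d
      rw [← F_nil c false d 0, ← F_nil c false false 0]
    rw [h1 h, ← mul_add, F_int']
    rcases c with _ | c
    · simp only [F, wr, okB]; norm_num
    · simp only [F, R, N_zero, wr, okB]
      cases c <;> norm_num [bit] <;> ring
  · have e0 : ∀ e, F (some a) w e = fun z => ((R w).2 a).2 * N ((R w).2 a).1 e z := by
      intro e; funext z; rw [F]
    rw [e0, e0, intervalIntegral.integral_const_mul, intervalIntegral.integral_const_mul]
    rcases c with _ | c
    · have h1 : ∀ d, wr none (some a) d = 1 / 2 := by
        intro d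
        cases a <;> cases d <;> norm_num [wr, okB, bit]
      rw [h1, h1, F, ← N_int_false]
      ring
    · by_cases hac : a = c
      · subst hac
        have h1 : ∀ d, wr (some a) (some a) d = 0 := by
          intro d
          cases a <;> cases d <;> norm_num [wr, okB, bit]
        rw [h1, h1, F]
        simp [R]
      · have hca : c = !a := by
          clear e0
          revert a c; decide
        subst hca
        have h1 : wr (some (!a)) (some a) false = 1 / 2 := by
          cases a <;> norm_num [wr, okB, bit]
        have h2 : wr (some (!a)) (some a) true = 0 := by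
          cases a <;> norm_num [wr, okB, bit]
        simp only [F, R, if_neg hac]
        cases h
        · rw [h1, ← N_int_false]
          ring
        · rw [h1, h2, ← N_int_true]
          ring


/-- a fair bit -/
noncomputable def fair : Measure Bool :=
  (2⁻¹ : ℝ≥0∞) • (Measure.dirac false + Measure.dirac true)

instance : IsProbabilityMeasure fair := ⟨by
  simp only [fair, Measure.smul_apply, Measure.add_apply, measure_univ, smul_eq_mul]
  rw [one_add_one_eq_two]
  exact ENNReal.inv_mul_cancel (by norm_num) (by norm_num)⟩

theorem lintegral_fair (g : Bool → ℝ≥0∞) : ∫⁻ β, g β ∂fair = 2⁻¹ * g false + 2⁻¹ * g true := by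
  rw [fair, lintegral_smul_measure, lintegral_add_measure, lintegral_dirac, lintegral_dirac,
    smul_eq_mul, mul_add]

/-- the law of the i.i.d. variables: a uniform variable on `[0,1]` and an independent fair bit -/
noncomputable def nu : Measure (ℝ × Bool) := (volume.restrict (Set.Icc (0:ℝ) 1)).prod fair

instance : IsProbabilityMeasure (volume.restrict (Set.Icc (0:ℝ) 1)) := ⟨by simp⟩

instance : IsProbabilityMeasure nu := by unfold nu; infer_instance

/-- The event that the pattern is seen, given `h` and `y`. -/
noncomputable def goodB : (c : Option Bool) → (w : List (Option Bool)) → Bool → ℝ →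
    (Fin (w.length + 1) → ℝ × Bool) → Bool
  | c, [], h, y, g => okB c none (h && !decide (y < (g 0).1)) (g 0).2
  | c, a :: w, h, y, g => okB c a (h && !decide (y < (g 0).1)) (g 0).2 &&
      goodB a w (decide (y < (g 0).1)) (g 0).1 (Fin.tail g)

theorem measurable_decide_lt {α : Type*} [MeasurableSpace α] {f g : α → ℝ} (hf : Measurable f)
    (hg : Measurable g) : Measurable (fun x => decide (f x < g x)) := by
  apply measurable_to_bool
  have : (fun x => decide (f x < g x)) ⁻¹' {true} = {x | f x < g x} := by
    ext x; simp
  rw [this]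
  exact measurableSet_lt hf hg

theorem measurable_ite_bool {α β : Type*} [MeasurableSpace α] [MeasurableSpace β] {b : α → Bool}
    {f : Bool → α → β} (hb : Measurable b) (hf : ∀ e, Measurable (f e)) :
    Measurable (fun x => f (b x) x) := by
  have : (fun x => f (b x) x) = fun x => if b x = true then f true x else f false x := by
    funext x
    cases b x <;> simp
  rw [this]
  exact Measurable.ite (hb (measurableSet_singleton true)) (hf _) (hf _)

theorem measurable_goodB (w : List (Option Bool)) : ∀ (c : Option Bool) (h : Bool),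
    Measurable (fun p : ℝ × (Fin (w.length + 1) → ℝ × Bool) => goodB c w h p.1 p.2) := by
  induction w with
  | nil =>
    intro c h
    simp only [goodB]
    have h1 : Measurable (fun p : ℝ × (Fin (([] : List (Option Bool)).length + 1) → ℝ × Bool) =>
        decide (p.1 < (p.2 0).1)) :=
      measurable_decide_lt measurable_fst (by fun_prop)
    have h2 : Measurable (fun p : ℝ × (Fin (([] : List (Option Bool)).length + 1) → ℝ × Bool) =>
        (p.2 0).2) := by fun_prop
    exact (Measurable.of_discrete (f := fun q : Bool × Bool => okB c none (h && !q.1) q.2)).comp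
      (h1.prodMk h2)
  | cons a w ih =>
    intro c h
    simp only [goodB]
    have h1 : Measurable (fun p : ℝ × (Fin ((a :: w).length + 1) → ℝ × Bool) =>
        decide (p.1 < (p.2 0).1)) :=
      measurable_decide_lt measurable_fst (by fun_prop)
    have h2 : Measurable (fun p : ℝ × (Fin ((a :: w).length + 1) → ℝ × Bool) =>
        (p.2 0).2) := by fun_prop
    have h3 : ∀ e, Measurable (fun p : ℝ × (Fin ((a :: w).length + 1) → ℝ × Bool) =>
        goodB a w e (p.2 0).1 (Fin.tail p.2)) := by
      intro e
      have : Measurable (fun p : ℝ × (Fin ((a :: w).length + 1) → ℝ × Bool) =>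
          (((p.2 0).1, Fin.tail p.2) : ℝ × (Fin (w.length + 1) → ℝ × Bool))) := by
        apply Measurable.prodMk
        · fun_prop
        · apply measurable_pi_lambda
          intro j
          exact (measurable_pi_apply (j.succ)).comp measurable_snd
      exact (ih a e).comp this
    have h4 : Measurable (fun p : ℝ × (Fin ((a :: w).length + 1) → ℝ × Bool) =>
        goodB a w (decide (p.1 < (p.2 0).1)) (p.2 0).1 (Fin.tail p.2)) :=
      measurable_ite_bool (f := fun e (p : ℝ × (Fin ((a :: w).length + 1) → ℝ × Bool)) =>
        goodB a w e (p.2 0).1 (Fin.tail p.2)) h1 h3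
    have h6 : Measurable (fun p : ℝ × (Fin ((a :: w).length + 1) → ℝ × Bool) =>
        okB c a (h && !decide (p.1 < (p.2 0).1)) (p.2 0).2) := by
      have h5 := (measurable_of_countable (fun q : Bool × Bool => okB c a (h && !q.1) q.2)).comp
        (h1.prodMk h2)
      simpa only [Function.comp_def] using h5
    have h7 := (measurable_of_countable (fun q : Bool × Bool => q.1 && q.2)).comp (h6.prodMk h4)
    simpa only [Function.comp_def] using h7

/-- probability of the pattern given the past -/
noncomputable def M (c : Option Bool) (w : List (Option Bool)) (h : Bool) (y : ℝ) : ℝ≥0∞ :=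
  Measure.pi (fun _ : Fin (w.length + 1) => nu) {g | goodB c w h y g = true}

theorem pi_succ {n : ℕ} (A : Set (Fin (n + 1) → ℝ × Bool)) (hA : MeasurableSet A) :
    Measure.pi (fun _ : Fin (n + 1) => nu) A
      = ∫⁻ s, Measure.pi (fun _ : Fin n => nu) {l | (Fin.cons s l : Fin (n + 1) → ℝ × Bool) ∈ A}
          ∂nu := by
  have hmp := (measurePreserving_piFinSuccAbove (fun _ : Fin (n + 1) => nu) 0).symm
  have h1 := hmp.measure_preimage hA.nullMeasurableSet
  rw [← h1, Measure.prod_apply (hmp.measurable hA)]
  apply lintegral_congr
  intro s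
  congr 1
  ext l
  simp only [Set.mem_preimage, Set.mem_ofPred_eq]
  have : (MeasurableEquiv.piFinSuccAbove (fun _ : Fin (n + 1) => ℝ × Bool) 0).symm (s, l)
      = Fin.cons s l := by
    funext j
    refine Fin.cases ?_ (fun i => ?_) j
    · simp [MeasurableEquiv.piFinSuccAbove, Fin.insertNthEquiv]
    · simp [MeasurableEquiv.piFinSuccAbove, Fin.insertNthEquiv]
  rw [this]

theorem M_nil (c : Option Bool) (h : Bool) (y : ℝ) :
    M c [] h y = ∫⁻ s, (if okB c none (h && !decide (y < s.1)) s.2 then 1 else 0) ∂nu := by
  have hm : MeasurableSet {g : Fin (([] : List (Option Bool)).length + 1) → ℝ × Bool |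
      goodB c [] h y g = true} :=
    ((measurable_goodB [] c h).comp (measurable_prodMk_left (x := y)))
      (measurableSet_singleton true)
  rw [M, pi_succ _ hm]
  apply lintegral_congr
  intro s
  split_ifs with hs
  · have : {l : Fin ([] : List (Option Bool)).length → ℝ × Bool |
        (Fin.cons s l : Fin (([] : List (Option Bool)).length + 1) → ℝ × Bool) ∈
          {g : Fin (([] : List (Option Bool)).length + 1) → ℝ × Bool |
            goodB c [] h y g = true}} = Set.univ := by
      ext l
      simpa [goodB] using hs
    rw [this, measure_univ]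
  · have : {l : Fin ([] : List (Option Bool)).length → ℝ × Bool |
        (Fin.cons s l : Fin (([] : List (Option Bool)).length + 1) → ℝ × Bool) ∈
          {g : Fin (([] : List (Option Bool)).length + 1) → ℝ × Bool |
            goodB c [] h y g = true}} = ∅ := by
      ext l
      simpa [goodB] using hs
    rw [this, measure_empty]

theorem M_cons (c a : Option Bool) (w : List (Option Bool)) (h : Bool) (y : ℝ) :
    M c (a :: w) h y = ∫⁻ s, (if okB c a (h && !decide (y < s.1)) s.2 then
      M a w (decide (y < s.1)) s.1 else 0) ∂nu := by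
  have hm : MeasurableSet {g : Fin ((a :: w).length + 1) → ℝ × Bool |
      goodB c (a :: w) h y g = true} :=
    ((measurable_goodB (a :: w) c h).comp (measurable_prodMk_left (x := y)))
      (measurableSet_singleton true)
  rw [M, pi_succ _ hm]
  apply lintegral_congr
  intro s
  split_ifs with hs
  · rw [M]
    congr 1
    ext l
    simp only [Set.mem_ofPred_eq, goodB, Fin.cons_zero, hs, Bool.true_and]
    rfl
  · have : {l : Fin (a :: w).length → ℝ × Bool |
        (Fin.cons s l : Fin ((a :: w).length + 1) → ℝ × Bool) ∈
          {g : Fin ((a :: w).length + 1) → ℝ × Bool |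
            goodB c (a :: w) h y g = true}} = ∅ := by
      ext l
      simp only [Set.mem_ofPred_eq, goodB, Fin.cons_zero, Set.mem_empty_iff_false, iff_false,
        Bool.and_eq_true, not_and]
      intro h1
      exact absurd h1 hs
    rw [this, measure_empty]


theorem lint_interval (A : ℝ → ℝ) (hA : Continuous A) {u v : ℝ} (huv : u ≤ v)
    (hA0 : ∀ z ∈ Set.Ioc u v, 0 ≤ A z) :
    ∫⁻ z in Set.Ioc u v, ENNReal.ofReal (A z) = ENNReal.ofReal (∫ z in u..v, A z) := by
  rw [intervalIntegral.integral_of_le huv, ofReal_integral_eq_lintegral_ofReal]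
  · exact (hA.integrableOn_Icc (μ := volume) (a := u) (b := v)).mono_set Set.Ioc_subset_Icc_self
  · filter_upwards [ae_restrict_mem measurableSet_Ioc] with z hz
    exact hA0 z hz

theorem lint_piece (A B : ℝ → ℝ) (hA : Continuous A) (hB : Continuous B)
    (hA0 : ∀ z ∈ Set.Icc (0:ℝ) 1, 0 ≤ A z) (hB0 : ∀ z ∈ Set.Icc (0:ℝ) 1, 0 ≤ B z)
    {y : ℝ} (hy : y ∈ Set.Icc (0:ℝ) 1) :
    ∫⁻ z in Set.Icc (0:ℝ) 1, ENNReal.ofReal (if y < z then A z else B z)
      = ENNReal.ofReal ((∫ z in (0:ℝ)..y, B z) + ∫ z in y..1, A z) := by
  have h1 : volume.restrict (Set.Icc (0:ℝ) 1) = volume.restrict (Set.Ioc (0:ℝ) 1) :=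
    Measure.restrict_congr_set Ioc_ae_eq_Icc.symm
  rw [h1, ← Set.Ioc_union_Ioc_eq_Ioc hy.1 hy.2, lintegral_union measurableSet_Ioc
    (Set.Ioc_disjoint_Ioc_of_le le_rfl)]
  rw [ENNReal.ofReal_add]
  · congr 1
    · rw [← lint_interval B hB hy.1 (fun z hz => hB0 z ⟨hz.1.le, hz.2.trans hy.2⟩)]
      apply setLIntegral_congr_fun measurableSet_Ioc
      intro z hz
      simp only
      rw [if_neg (not_lt.2 hz.2)]
    · rw [← lint_interval A hA hy.2 (fun z hz => hA0 z ⟨hy.1.trans hz.1.le, hz.2⟩)]
      apply setLIntegral_congr_fun measurableSet_Ioc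
      intro z hz
      simp only
      rw [if_pos hz.1]
  · exact intervalIntegral.integral_nonneg hy.1 (fun z hz => hB0 z ⟨hz.1, hz.2.trans hy.2⟩)
  · exact intervalIntegral.integral_nonneg hy.2 (fun z hz => hA0 z ⟨hy.1.trans hz.1, hz.2⟩)

theorem step (c a : Option Bool) (h : Bool) {y : ℝ} (hy : y ∈ Set.Icc (0:ℝ) 1)
    (G : Bool → ℝ → ℝ) (hG : ∀ e, Continuous (G e))
    (hG0 : ∀ e, ∀ z ∈ Set.Icc (0:ℝ) 1, 0 ≤ G e z)
    (Gm : Bool → ℝ → ℝ≥0∞) (hGm : ∀ e, ∀ z ∈ Set.Icc (0:ℝ) 1, Gm e z = ENNReal.ofReal (G e z)) :
    ∫⁻ s, (if okB c a (h && !decide (y < s.1)) s.2 then Gm (decide (y < s.1)) s.1 else 0) ∂nu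
      = ENNReal.ofReal (wr c a h * (∫ z in (0:ℝ)..y, G false z)
        + wr c a false * ∫ z in y..1, G true z) := by
  have hae : ∀ᵐ s ∂nu, s.1 ∈ Set.Icc (0:ℝ) 1 :=
    Measure.quasiMeasurePreserving_fst.ae (ae_restrict_mem measurableSet_Icc)
  have e1 : ∫⁻ s, (if okB c a (h && !decide (y < s.1)) s.2 then
      Gm (decide (y < s.1)) s.1 else 0) ∂nu
      = ∫⁻ s, (if okB c a (h && !decide (y < s.1)) s.2 then
        ENNReal.ofReal (G (decide (y < s.1)) s.1) else 0) ∂nu := by
    apply lintegral_congr_ae
    filter_upwards [hae] with s hs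
    rw [hGm _ _ hs]
  have hd : Measurable (fun s : ℝ × Bool => decide (y < s.1)) :=
    measurable_decide_lt measurable_const measurable_fst
  have hm : Measurable (fun s : ℝ × Bool => (if okB c a (h && !decide (y < s.1)) s.2 then
        ENNReal.ofReal (G (decide (y < s.1)) s.1) else 0)) := by
    apply Measurable.ite
    · have h5 := (measurable_of_countable (fun q : Bool × Bool => okB c a (h && !q.1) q.2)).comp
        (hd.prodMk measurable_snd)
      exact h5 (measurableSet_singleton true)
    · have : ∀ e, Measurable (fun s : ℝ × Bool => ENNReal.ofReal (G e s.1)) :=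
        fun e => ((hG e).measurable.comp measurable_fst).ennreal_ofReal
      exact measurable_ite_bool (f := fun e (s : ℝ × Bool) => ENNReal.ofReal (G e s.1)) hd this
    · exact measurable_const
  rw [e1, nu, lintegral_prod _ hm.aemeasurable]
  have e2 : ∀ z, z ∈ Set.Icc (0:ℝ) 1 → ∫⁻ β, (if okB c a (h && !decide (y < z)) β then
      ENNReal.ofReal (G (decide (y < z)) z) else 0) ∂fair
      = ENNReal.ofReal (if y < z then wr c a false * G true z else wr c a h * G false z) := by
    intro z hz
    rw [lintegral_fair]
    have e3 : ∀ d e, 2⁻¹ * (if okB c a d false then ENNReal.ofReal (G e z) else 0)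
        + 2⁻¹ * (if okB c a d true then ENNReal.ofReal (G e z) else 0)
        = ENNReal.ofReal (wr c a d * G e z) := by
      intro d e
      rw [ENNReal.ofReal_mul (wr_nonneg _ _ _), wr, ENNReal.ofReal_add (by positivity)
        (by positivity), ENNReal.ofReal_mul (by norm_num), ENNReal.ofReal_mul (by norm_num)]
      have h2 : ENNReal.ofReal (1 / 2) = 2⁻¹ := by
        rw [one_div, ENNReal.ofReal_inv_of_pos (by norm_num)]
        norm_num
      rw [h2]
      split_ifs <;> simp [add_mul]
    rw [e3]
    by_cases hyz : y < z
    · simp [hyz]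
    · simp [hyz]
  rw [setLIntegral_congr_fun measurableSet_Icc (fun z hz => e2 z hz)]
  rw [lint_piece (fun z => wr c a false * G true z) (fun z => wr c a h * G false z)
    (continuous_const.mul (hG _)) (continuous_const.mul (hG _))
    (fun z hz => mul_nonneg (wr_nonneg _ _ _) (hG0 _ _ hz))
    (fun z hz => mul_nonneg (wr_nonneg _ _ _) (hG0 _ _ hz)) hy]
  rw [intervalIntegral.integral_const_mul, intervalIntegral.integral_const_mul]

theorem M_eq (w : List (Option Bool)) : ∀ (c : Option Bool) (h : Bool) (y : ℝ),
    y ∈ Set.Icc (0:ℝ) 1 → M c w h y = ENNReal.ofReal (F c w h y) := by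
  induction w with
  | nil =>
    intro c h y hy
    rw [M_nil, step c none h hy (fun _ _ => 1) (fun _ => continuous_const)
      (fun _ _ _ => zero_le_one) (fun _ _ => 1) (fun _ _ _ => by simp)]
    congr 1
    have h1 : wr c none false = wr c none h := by
      rw [← F_nil c false false 0, ← F_nil c false h 0]
    rw [F_nil c h h y, h1, ← mul_add]
    simp
  | cons a w ih =>
    intro c h y hy
    rw [M_cons, step c a h hy (F a w) (F_cont a w) (fun e z hz => F_nonneg a w e hz)
      (M a w) (fun e z hz => ih a e z hz), F_cons]

/-- the probability of the pattern `w` -/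
theorem pattern_prob (w : List (Option Bool)) (h : Bool) :
    M none (none :: none :: w) h 0 = ENNReal.ofReal (R w).1 := by
  rw [M_eq _ _ _ _ (by simp), F, R]

/-- The merging of the colors `1, 2, 3, 4` (here `0, 1, 2, 3 : Fin 4`) to `1, 2, ⋆`
(here `0, 1, 2 : Fin 3`). -/
def iota (a : Fin 4) : Fin 3 := if a = 0 then 0 else if a = 1 then 1 else 2

/-- the merged color corresponding to a Boolean -/
def colr (a : Bool) : Fin 3 := if a then 1 else 0

theorem colr_inj {a b : Bool} (h : colr a = colr b) : a = b := by
  revert a b; decide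

theorem iota_eq_colr (x : Fin 4) (a : Bool) : iota x = colr a ↔ x = col a := by
  revert x a; decide

/-- pattern matching -/
def WM (z : ℤ → Fin 3) : ℤ → List (Option Bool) → Prop
  | _, [] => True
  | i, a :: w => (∀ c ∈ a, z i = colr c) ∧ WM z (i + 1) w

theorem WM_ofFn (z : ℤ → Fin 3) (n : ℕ) : ∀ (i : ℤ) (p : Fin n → Option Bool),
    WM z i (List.ofFn p) ↔ ∀ j : Fin n, ∀ c ∈ p j, z (i + j) = colr c := by
  induction n with
  | zero => intro i p; simp [WM]
  | succ n ih =>
    intro i p
    rw [List.ofFn_succ, WM, ih, Fin.forall_fin_succ]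
    simp only [Fin.val_zero, Nat.cast_zero, add_zero, Fin.val_succ, Nat.cast_add, Nat.cast_one]
    have : ∀ j : Fin n, i + 1 + (j : ℤ) = i + ((j : ℤ) + 1) := fun j => by ring
    simp only [this]

theorem sum_pattern (n : ℕ) : ∀ (q : List (Fin 4)) (p : Fin n → Option Bool),
    ∑ x : Fin n → Fin 4, (if ∀ j, ∀ c ∈ p j, iota (x j) = colr c then B (q ++ List.ofFn x) else 0)
      = SumB q (List.ofFn p) := by
  induction n with
  | zero => intro q p; simp [SumB]
  | succ n ih =>
    intro q p
    rw [List.ofFn_succ, ← (Fin.consEquiv (fun _ => Fin 4)).sum_comp, Fintype.sum_prod_type]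
    have key : ∀ a : Fin 4, ∑ y : Fin n → Fin 4,
        (if ∀ j, ∀ c ∈ p j, iota ((Fin.consEquiv (fun _ => Fin 4)) (a, y) j) = colr c then
          B (q ++ List.ofFn ((Fin.consEquiv (fun _ => Fin 4)) (a, y))) else 0)
        = if ∀ c ∈ p 0, iota a = colr c then SumB (q ++ [a]) (List.ofFn (fun j => p j.succ))
          else 0 := by
      intro a
      rw [← ih]
      split_ifs with h
      · apply Finset.sum_congr rfl
        intro y _
        have : (∀ j, ∀ c ∈ p j, iota ((Fin.consEquiv (fun _ => Fin 4)) (a, y) j) = colr c)
            ↔ ∀ j : Fin n, ∀ c ∈ p j.succ, iota (y j) = colr c := by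
          rw [Fin.forall_fin_succ]
          simp only [Fin.consEquiv, Equiv.coe_fn_mk, Fin.cons_zero, Fin.cons_succ]
          exact and_iff_right h
        simp only [this]
        congr 1
        simp [Fin.consEquiv, List.ofFn_succ]
      · apply Finset.sum_eq_zero
        intro y _
        rw [if_neg]
        intro h'
        apply h
        have := h' 0
        simpa [Fin.consEquiv] using this
    rw [Finset.sum_congr rfl (fun a _ => key a)]
    cases hp : p 0 with
    | none => simp [SumB]
    | some c =>
      simp only [SumB, Option.mem_def, Option.some.injEq, forall_eq', iota_eq_colr]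
      simp

theorem okB_iff (c a : Option Bool) (d β : Bool) :
    okB c a d β = true ↔ (∀ x ∈ c, bit x d β = false) ∧ (∀ x ∈ a, bit x d β = true) := by
  rcases c with _ | c <;> rcases a with _ | a <;> simp [okB]

/-- the block map, on discretized data -/
def F0 (h0 h1 h2 β0 β1 : Bool) : Fin 3 :=
  if bit false (h0 && !h1) β0 && !bit false (h1 && !h2) β1 then 0
  else if bit true (h0 && !h1) β0 && !bit true (h1 && !h2) β1 then 1 else 2

theorem F0_spec (h0 h1 h2 β0 β1 a : Bool) : F0 h0 h1 h2 β0 β1 = colr a ↔
    bit a (h0 && !h1) β0 = true ∧ bit a (h1 && !h2) β1 = false := by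
  revert h0 h1 h2 β0 β1 a; decide

/-- the block map -/
noncomputable def fblk (v : Fin 4 → ℝ × Bool) : Fin 3 :=
  F0 (decide ((v 0).1 < (v 1).1)) (decide ((v 1).1 < (v 2).1)) (decide ((v 2).1 < (v 3).1))
    (v 2).2 (v 3).2

theorem measurable_fblk : Measurable fblk := by
  have h0 : Measurable (fun v : Fin 4 → ℝ × Bool => decide ((v 0).1 < (v 1).1)) :=
    measurable_decide_lt (by fun_prop) (by fun_prop)
  have h1 : Measurable (fun v : Fin 4 → ℝ × Bool => decide ((v 1).1 < (v 2).1)) :=
    measurable_decide_lt (by fun_prop) (by fun_prop)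
  have h2 : Measurable (fun v : Fin 4 → ℝ × Bool => decide ((v 2).1 < (v 3).1)) :=
    measurable_decide_lt (by fun_prop) (by fun_prop)
  have h3 : Measurable (fun v : Fin 4 → ℝ × Bool => (v 2).2) := by fun_prop
  have h4 : Measurable (fun v : Fin 4 → ℝ × Bool => (v 3).2) := by fun_prop
  have h5 := (measurable_of_countable (fun q : Bool × Bool × Bool × Bool × Bool =>
    F0 q.1 q.2.1 q.2.2.1 q.2.2.2.1 q.2.2.2.2)).comp
      (h0.prodMk (h1.prodMk (h2.prodMk (h3.prodMk h4))))
  exact h5

/-- ascents of the real coordinates -/
noncomputable def hh (ω : ℤ → ℝ × Bool) (i : ℤ) : Bool := decide ((ω i).1 < (ω (i + 1)).1)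

theorem fblk_eq (ω : ℤ → ℝ × Bool) (i : ℤ) (a : Bool) :
    fblk (fun k : Fin 4 => ω (i + k)) = colr a ↔
      bit a (hh ω i && !hh ω (i + 1)) (ω (i + 2)).2 = true ∧
      bit a (hh ω (i + 1) && !hh ω (i + 1 + 1)) (ω (i + 1 + 2)).2 = false := by
  unfold fblk
  rw [F0_spec]
  simp only [hh, Fin.val_zero, Fin.val_one, Fin.val_two, Nat.cast_zero, Nat.cast_one, add_zero]
  have e1 : i + 1 + 1 = i + 2 := by ring
  have e2 : i + 2 + 1 = i + 3 := by ring
  have e3 : i + 1 + 2 = i + 3 := by ring
  rw [e1, e2, e3]
  rfl

theorem WM_iff (ω : ℤ → ℝ × Bool) (w : List (Option Bool)) : ∀ (c : Option Bool) (i : ℤ),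
    ((∀ x ∈ c, bit x (hh ω i && !hh ω (i + 1)) (ω (i + 2)).2 = false) ∧
      WM (fun j => fblk (fun k : Fin 4 => ω (j + k))) i w) ↔
    goodB c w (hh ω i) (ω (i + 1)).1 (fun j : Fin (w.length + 1) => ω (i + 2 + j)) = true := by
  induction w with
  | nil =>
    intro c i
    have e1 : i + 1 + 1 = i + 2 := by ring
    simp only [goodB, WM, and_true, okB_iff, hh, e1]
    simp
  | cons a w ih =>
    intro c i
    have e1 : i + 1 + 1 = i + 2 := by ring
    have hz : (((0 : Fin ((a :: w).length + 1)) : ℕ) : ℤ) = 0 := rfl
    have e3 : (Fin.tail (fun j : Fin ((a :: w).length + 1) => ω (i + 2 + j)) :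
        Fin (w.length + 1) → ℝ × Bool) = fun j : Fin (w.length + 1) => ω (i + 1 + 2 + j) := by
      funext j
      simp only [Fin.tail, Fin.val_succ, Nat.cast_add, Nat.cast_one]
      congr 1
      ring
    have ih' := ih a (i + 1)
    simp only [goodB, WM, Bool.and_eq_true, hz, add_zero, e3]
    have e4 : decide ((ω (i + 1)).1 < (ω (i + 2)).1) = hh ω (i + 1) := by
      rw [hh, e1]
    rw [e4, ← e1, ← ih', okB_iff]
    have e5 : (∀ x ∈ a, fblk (fun k : Fin 4 => ω (i + k)) = colr x) ↔
        (∀ x ∈ a, bit x (hh ω i && !hh ω (i + 1)) (ω (i + 2)).2 = true) ∧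
        (∀ x ∈ a, bit x (hh ω (i + 1) && !hh ω (i + 1 + 1)) (ω (i + 1 + 2)).2 = false) := by
      simp only [fblk_eq]
      constructor
      · intro h
        exact ⟨fun x hx => (h x hx).1, fun x hx => (h x hx).2⟩
      · rintro ⟨h1, h2⟩ x hx
        exact ⟨h1 x hx, h2 x hx⟩
    rw [e5]
    rw [← e1]
    tauto

/-- the i.i.d. measure -/
noncomputable def Piid : Measure (ℤ → ℝ × Bool) := Measure.infinitePi (fun _ => nu)

instance : IsProbabilityMeasure Piid := by unfold Piid; infer_instance

theorem Piid_window (i : ℤ) (m : ℕ) :
    Piid.map (fun ω (j : Fin m) => ω (i + j)) = Measure.pi (fun _ : Fin m => nu) := by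
  have hinj : Function.Injective (fun j : Fin m => i + (j : ℤ)) := by
    intro a b hab
    have h2 : (a : ℤ) = (b : ℤ) := by simpa using hab
    exact Fin.ext (by exact_mod_cast h2)
  have := Measure.map_infinitePi_infinitePi_of_inj (P := fun _ : ℤ => nu) hinj
  rw [Piid, this, Measure.infinitePi_eq_pi]

theorem Piid_pattern (i : ℤ) (w : List (Option Bool)) :
    Piid {ω | WM (fun j => fblk (fun k : Fin 4 => ω (j + k))) i w} = ENNReal.ofReal (R w).1 := by
  rw [← pattern_prob w false, M, ← Piid_window i, Measure.map_apply]
  · congr 1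
    ext ω
    have h := WM_iff ω w none i
    simp only [Option.mem_def, reduceCtorEq, false_imp_iff, forall_const, true_and] at h
    simp only [Set.mem_ofPred_eq, Set.mem_preimage]
    rw [h]
    simp only [goodB, okB, Bool.true_and]
    have e0 : (((0 : Fin ((none :: none :: w : List (Option Bool)).length + 1)) : ℕ) : ℤ) = 0 :=
      rfl
    have e1 : (Fin.tail (fun j : Fin ((none :: none :: w : List (Option Bool)).length + 1) =>
        ω (i + j)) : Fin ((none :: w : List (Option Bool)).length + 1) → ℝ × Bool)
        = fun j : Fin ((none :: w : List (Option Bool)).length + 1) => ω (i + 1 + j) := by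
      funext j
      simp only [Fin.tail, Fin.val_succ, Nat.cast_add, Nat.cast_one]
      congr 1
      ring
    have e2 : (Fin.tail (fun j : Fin ((none :: w : List (Option Bool)).length + 1) =>
        ω (i + 1 + j)) : Fin (w.length + 1) → ℝ × Bool)
        = fun j : Fin (w.length + 1) => ω (i + 2 + j) := by
      funext j
      simp only [Fin.tail, Fin.val_succ, Nat.cast_add, Nat.cast_one]
      congr 1
      ring
    have e3 : (((0 : Fin ((none :: w : List (Option Bool)).length + 1)) : ℕ) : ℤ) = 0 := rfl
    simp only [e1, e2, e0, e3, add_zero]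
    rfl
  · fun_prop
  · exact ((measurable_goodB (none :: none :: w) none false).comp
      (measurable_prodMk_left (x := 0))) (measurableSet_singleton true)

/-- Measures on sequences over `Fin 3` are determined by the patterns over the letters `0`, `1`. -/
theorem ext_patterns {I : Type} [Countable I] (μ ν : Measure (I → Fin 3)) [IsProbabilityMeasure μ]
    [IsProbabilityMeasure ν]
    (h : ∀ p : I → Option Bool, {j | p j ≠ none}.Finite →
      μ {z | ∀ j, ∀ a ∈ p j, z j = colr a} = ν {z | ∀ j, ∀ a ∈ p j, z j = colr a}) : μ = ν := by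
  classical
  set C : Set (Set (I → Fin 3)) := {A | ∃ p : I → Option Bool, {j | p j ≠ none}.Finite ∧
    A = {z | ∀ j, ∀ a ∈ p j, z j = colr a}} with hC
  apply MeasureTheory.ext_of_generate_finite C
  · apply le_antisymm
    · apply iSup_le
      intro j
      rw [← measurable_iff_comap_le]
      apply @measurable_to_countable' (Fin 3) (I → Fin 3) _ _ (MeasurableSpace.generateFrom C)
      intro v
      have hs : ∀ a : Bool, MeasurableSet[MeasurableSpace.generateFrom C]
          ((fun z : I → Fin 3 => z j) ⁻¹' {colr a}) := by
        intro a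
        apply MeasurableSpace.measurableSet_generateFrom
        refine ⟨fun k => if k = j then some a else none, ?_, ?_⟩
        · apply (Set.finite_singleton j).subset
          intro k hk
          by_contra hkj
          have : k ≠ j := hkj
          simp [this] at hk
        · ext z
          simp only [Set.mem_preimage, Set.mem_singleton_iff, Set.mem_ofPred_eq]
          constructor
          · intro hz k b hb
            by_cases hk : k = j
            · subst hk
              simp at hb
              rw [hz, hb]
            · simp [hk] at hb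
          · intro hz
            exact hz j a (by simp)
      have h3 : (fun z : I → Fin 3 => z j) ⁻¹' {2}
          = ((fun z : I → Fin 3 => z j) ⁻¹' {colr false}
            ∪ (fun z : I → Fin 3 => z j) ⁻¹' {colr true})ᶜ := by
        ext z
        simp only [Set.mem_preimage, Set.mem_singleton_iff, Set.mem_compl_iff, Set.mem_union]
        generalize z j = v
        revert v
        decide
      fin_cases v
      · exact hs false
      · exact hs true
      · simp only [Fin.reduceFinMk]
        rw [h3]
        exact ((hs false).union (hs true)).compl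
    · apply MeasurableSpace.generateFrom_le
      rintro A ⟨p, -, rfl⟩
      have : {z : I → Fin 3 | ∀ j, ∀ a ∈ p j, z j = colr a}
          = ⋂ j, {z : I → Fin 3 | ∀ a ∈ p j, z j = colr a} := by
        ext z; simp
      rw [this]
      apply MeasurableSet.iInter
      intro j
      have : {z : I → Fin 3 | ∀ a ∈ p j, z j = colr a}
          = (fun z : I → Fin 3 => z j) ⁻¹' {v | ∀ a ∈ p j, v = colr a} := rfl
      rw [this]
      exact (measurable_pi_apply j) (MeasurableSet.of_discrete)
  · rintro A ⟨p, hp, rfl⟩ A' ⟨p', hp', rfl⟩ ⟨z0, hz0, hz0'⟩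
    refine ⟨fun j => (p j).or (p' j), ?_, ?_⟩
    · apply (hp.union hp').subset
      intro j hj
      by_contra hcon
      simp only [Set.mem_union, Set.mem_ofPred_eq, not_or, not_not] at hcon
      apply hj
      simp [hcon.1, hcon.2]
    · ext z
      simp only [Set.mem_inter_iff, Set.mem_ofPred_eq]
      constructor
      · rintro ⟨h1, h2⟩ j a ha
        rcases hpj : p j with _ | b
        · rw [hpj] at ha
          exact h2 j a (by simpa using ha)
        · rw [hpj] at ha
          have : b = a := by simpa using ha
          subst this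
          exact h1 j b hpj
      · intro hz
        refine ⟨?_, ?_⟩
        · intro j a ha
          apply hz j a
          rw [Option.mem_def] at ha ⊢
          rw [ha]; rfl
        · intro j a ha
          rcases hpj : p j with _ | b
          · apply hz j a
            rw [hpj]; simpa using ha
          · have e1 := hz0 j b hpj
            have e2 := hz0' j a ha
            have e3 : b = a := colr_inj (by rw [← e1, ← e2])
            subst e3
            apply hz j b
            rw [hpj]; rfl
  · rintro A ⟨p, hp, rfl⟩
    exact h p hp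
  · simp

/-- The law of the merged coloring on a window of `n` sites. -/
noncomputable def kap (n : ℕ) : Measure (Fin n → Fin 3) :=
  ∑ x : Fin n → Fin 4, ((B (List.ofFn x) : ℝ≥0∞) / (Z n : ℝ≥0∞)) •
    Measure.dirac (fun j => iota (x j))

theorem Z_pos (n : ℕ) : 0 < Z n := by
  rw [Z_eq]; positivity

theorem kap_apply (n : ℕ) (A : Set (Fin n → Fin 3)) [DecidablePred (· ∈ A)] :
    kap n A = ∑ x : Fin n → Fin 4,
      if (fun j => iota (x j)) ∈ A then (B (List.ofFn x) : ℝ≥0∞) / (Z n : ℝ≥0∞) else 0 := by
  rw [kap, Measure.finsetSum_apply]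
  apply Finset.sum_congr rfl
  intro x _
  rw [Measure.smul_apply, Measure.dirac_apply' _ MeasurableSet.of_discrete, smul_eq_mul]
  by_cases hx : (fun j => iota (x j)) ∈ A
  · simp [hx]
  · simp [hx]

theorem sum_cast_div (n : ℕ) (p : (Fin n → Fin 4) → Prop) [DecidablePred p] :
    (∑ x : Fin n → Fin 4, if p x then (B (List.ofFn x) : ℝ≥0∞) / (Z n : ℝ≥0∞) else 0)
      = ((∑ x : Fin n → Fin 4, if p x then B (List.ofFn x) else 0 : ℕ) : ℝ≥0∞)
        / (Z n : ℝ≥0∞) := by
  rw [Nat.cast_sum, ENNReal.div_eq_inv_mul, Finset.mul_sum]
  apply Finset.sum_congr rfl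
  intro x _
  split_ifs
  · rw [ENNReal.div_eq_inv_mul]
  · simp

instance (n : ℕ) : IsProbabilityMeasure (kap n) := ⟨by
  classical
  rw [kap_apply]
  simp only [Set.mem_univ, if_true]
  have h := sum_cast_div n (fun _ => True)
  simp only [if_true] at h
  rw [h]
  have : (Z n : ℝ≥0∞) ≠ 0 := by exact_mod_cast (Z_pos n).ne'
  exact ENNReal.div_self this (ENNReal.natCast_ne_top _)⟩

theorem kap_pattern (n : ℕ) (p : Fin n → Option Bool) :
    kap n {z | ∀ j, ∀ a ∈ p j, z j = colr a} = ENNReal.ofReal (R (List.ofFn p)).1 := by
  classical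
  rw [kap_apply]
  simp only [Set.mem_ofPred_eq]
  rw [sum_cast_div]
  have h := sum_pattern n [] p
  simp only [List.nil_append] at h
  rw [h]
  have h2 := (SumB_formula (List.ofFn p)).1
  rw [List.length_ofFn] at h2
  have hZ : (Z n : ℝ) = 2 ^ n * (n + 1).factorial := by rw [Z_eq]; push_cast; ring
  rw [← hZ] at h2
  have hZ0 : (0 : ℝ) < Z n := by exact_mod_cast Z_pos n
  have h3 : (R (List.ofFn p)).1 = (SumB [] (List.ofFn p) : ℝ) / (Z n : ℝ) := by
    rw [h2]; field_simp
  rw [h3, ENNReal.ofReal_div_of_pos hZ0, ENNReal.ofReal_natCast, ENNReal.ofReal_natCast]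

theorem Piid_law (i : ℤ) (n : ℕ) :
    Piid.map (fun ω (j : Fin n) => fblk (fun k : Fin 4 => ω (i + j + k))) = kap n := by
  have hm : Measurable (fun (ω : ℤ → ℝ × Bool) (j : Fin n) =>
      fblk (fun k : Fin 4 => ω (i + j + k))) := by
    apply measurable_pi_lambda
    intro j
    exact measurable_fblk.comp (by fun_prop)
  have := Measure.isProbabilityMeasure_map (μ := Piid) hm.aemeasurable
  apply ext_patterns
  intro p _
  rw [kap_pattern, ← Piid_pattern i, Measure.map_apply hm MeasurableSet.of_discrete]
  congr 1
  ext ω
  simp only [Set.mem_preimage, Set.mem_ofPred_eq]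
  rw [WM_ofFn]

/-- The `1`-dependent `4`-coloring of `ℤ`: the process `X` with values in `Fin 4` whose law on
every window of `n` consecutive sites is `x ↦ B x / Z n`. -/
structure IsColoring {Ω : Type*} [MeasurableSpace Ω] (P : Measure Ω) (X : ℤ → Ω → Fin 4) :
    Prop where
  measurable : ∀ i, Measurable (X i)
  law : ∀ (i : ℤ) (n : ℕ) (x : Fin n → Fin 4),
    P {ω | ∀ j : Fin n, X (i + j) ω = x j} = (B (List.ofFn x) : ℝ≥0∞) / (Z n : ℝ≥0∞)

theorem coloring_law {Ω : Type*} [MeasurableSpace Ω] {P : Measure Ω} {X : ℤ → Ω → Fin 4}
    (hX : IsColoring P X) (i : ℤ) (n : ℕ) :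
    P.map (fun ω (j : Fin n) => iota (X (i + j) ω)) = kap n := by
  classical
  have hmX : Measurable (fun ω (j : Fin n) => X (i + j) ω) :=
    measurable_pi_lambda _ (fun j => hX.measurable _)
  have hm : Measurable (fun ω (j : Fin n) => iota (X (i + j) ω)) :=
    measurable_pi_lambda _ (fun j => (measurable_of_countable iota).comp (hX.measurable _))
  have h1 : P.map (fun ω (j : Fin n) => X (i + j) ω)
      = ∑ x : Fin n → Fin 4, ((B (List.ofFn x) : ℝ≥0∞) / (Z n : ℝ≥0∞)) • Measure.dirac x := by
    apply Measure.ext_of_singleton
    intro x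
    rw [Measure.map_apply hmX (measurableSet_singleton x), Measure.finsetSum_apply]
    have : (fun ω (j : Fin n) => X (i + j) ω) ⁻¹' {x} = {ω | ∀ j : Fin n, X (i + j) ω = x j} := by
      ext ω
      simp [funext_iff]
    rw [this, hX.law, Finset.sum_eq_single x]
    · simp
    · intro y _ hy
      simp [hy]
    · simp
  have h2 : P.map (fun ω (j : Fin n) => iota (X (i + j) ω))
      = (P.map (fun ω (j : Fin n) => X (i + j) ω)).map (fun x j => iota (x j)) := by
    rw [Measure.map_map (measurable_of_countable _) hmX]
    rfl
  rw [h2, h1, kap]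
  rw [Measure.map_finset_sum (measurable_of_countable _).aemeasurable]
  apply Finset.sum_congr rfl
  intro x _
  rw [Measure.map_smul]
  congr 1
  exact Measure.map_dirac' (measurable_of_countable _) x

/-- Processes with the same laws on windows have the same law. -/
theorem law_ext {Ω Ω' : Type*} [MeasurableSpace Ω] [MeasurableSpace Ω'] {P : Measure Ω}
    {P' : Measure Ω'} [IsProbabilityMeasure P] [IsProbabilityMeasure P'] {Y : ℤ → Ω → Fin 3}
    {Y' : ℤ → Ω' → Fin 3} (hY : ∀ i, Measurable (Y i)) (hY' : ∀ i, Measurable (Y' i))
    (h : ∀ (i : ℤ) (n : ℕ), P.map (fun ω (j : Fin n) => Y (i + j) ω)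
      = P'.map (fun ω (j : Fin n) => Y' (i + j) ω)) :
    P.map (fun ω i => Y i ω) = P'.map (fun ω i => Y' i ω) := by
  have hm : Measurable (fun ω i => Y i ω) := measurable_pi_lambda _ hY
  have hm' : Measurable (fun ω i => Y' i ω) := measurable_pi_lambda _ hY'
  have := Measure.isProbabilityMeasure_map (μ := P) hm.aemeasurable
  have := Measure.isProbabilityMeasure_map (μ := P') hm'.aemeasurable
  apply ext_patterns
  intro p hp
  obtain ⟨i, n, hin⟩ : ∃ (i : ℤ) (n : ℕ), ∀ j : ℤ, p j ≠ none → i ≤ j ∧ j < i + n := by
    obtain ⟨a, ha⟩ := hp.bddBelow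
    obtain ⟨b, hb⟩ := hp.bddAbove
    refine ⟨a, (b + 1 - a).toNat, fun j hj => ?_⟩
    have h1 := ha hj
    have h2 := hb hj
    have h3 := Int.self_le_toNat (b + 1 - a)
    constructor
    · exact h1
    · omega
  have key : ∀ z : ℤ → Fin 3, (∀ j, ∀ a ∈ p j, z j = colr a) ↔
      ∀ j : Fin n, ∀ a ∈ p (i + j), z (i + j) = colr a := by
    intro z
    constructor
    · intro h j a ha
      exact h _ a ha
    · intro h j a ha
      have h1 : p j ≠ none := by
        rw [Option.mem_def] at ha
        rw [ha]; simp
      obtain ⟨h2, h3⟩ := hin j h1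
      have h4 : i + ((⟨(j - i).toNat, by omega⟩ : Fin n) : ℕ) = j := by
        simp only
        omega
      have := h ⟨(j - i).toNat, by omega⟩ a (by rw [h4]; exact ha)
      rw [h4] at this
      exact this
  have hset : MeasurableSet {z : Fin n → Fin 3 | ∀ j : Fin n, ∀ a ∈ p (i + j), z j = colr a} :=
    MeasurableSet.of_discrete
  have hset2 : MeasurableSet {z : ℤ → Fin 3 | ∀ j : ℤ, ∀ a ∈ p j, z j = colr a} := by
    have : {z : ℤ → Fin 3 | ∀ j, ∀ a ∈ p j, z j = colr a}
        = ⋂ j, (fun z : ℤ → Fin 3 => z j) ⁻¹' {v | ∀ a ∈ p j, v = colr a} := by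
      ext z; simp
    rw [this]
    exact MeasurableSet.iInter (fun j => (measurable_pi_apply j) MeasurableSet.of_discrete)
  rw [Measure.map_apply hm hset2, Measure.map_apply hm' hset2]
  have e1 := congrArg (fun μ => μ {z : Fin n → Fin 3 | ∀ j : Fin n, ∀ a ∈ p (i + j), z j = colr a})
    (h i n)
  rw [Measure.map_apply (measurable_pi_lambda _ (fun j => hY _)) hset,
    Measure.map_apply (measurable_pi_lambda _ (fun j => hY' _)) hset] at e1
  simp only [Set.preimage_ofPred_eq] at e1 ⊢
  simp only [key]
  exact e1

/-- **Main result.** The merged coloring is a `4`-block factor of an i.i.d. process: there are an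
i.i.d. sequence `U` indexed by `ℤ` and a measurable map `f` of four variables such that
`f (U i, U (i+1), U (i+2), U (i+3))`, `i ∈ ℤ`, has the finite dimensional distributions of
`W = iota ∘ X`, and the same law as `W` for every version `X` of the coloring. -/
theorem result :
    ∃ (Ω' S : Type) (_ : MeasurableSpace Ω') (_ : MeasurableSpace S) (P' : Measure Ω')
      (U : ℤ → Ω' → S) (f : (Fin 4 → S) → Fin 3),
      IsProbabilityMeasure P' ∧ (∀ i, Measurable (U i)) ∧ iIndepFun U P' ∧
      (∀ i j, IdentDistrib (U i) (U j) P' P') ∧ Measurable f ∧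
      (∀ (i : ℤ) (n : ℕ) (u : Fin n → Fin 3),
        P' {ω' | ∀ j : Fin n, f (fun k : Fin 4 => U (i + j + k) ω') = u j}
          = ∑ x : Fin n → Fin 4,
            if (∀ j, iota (x j) = u j) then (B (List.ofFn x) : ℝ≥0∞) / (Z n : ℝ≥0∞) else 0) ∧
      (∀ (Ω : Type u) (_ : MeasurableSpace Ω) (P : Measure Ω) (X : ℤ → Ω → Fin 4),
        IsProbabilityMeasure P → IsColoring P X →
        P.map (fun ω i => iota (X i ω))
          = P'.map (fun ω' i => f (fun k : Fin 4 => U (i + k) ω'))) := by
  classical
  refine ⟨ℤ → ℝ × Bool, ℝ × Bool, inferInstance, inferInstance, Piid, fun i ω => ω i, fblk,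
    inferInstance, fun i => measurable_pi_apply i, ?_, ?_, measurable_fblk, ?_, ?_⟩
  · exact iIndepFun_infinitePi (P := fun _ : ℤ => nu) (X := fun _ s => s) (fun _ => measurable_id)
  · intro i j
    refine ⟨(measurable_pi_apply i).aemeasurable, (measurable_pi_apply j).aemeasurable, ?_⟩
    have h1 := Measure.infinitePi_map_eval (fun _ : ℤ => nu) i
    have h2 := Measure.infinitePi_map_eval (fun _ : ℤ => nu) j
    exact h1.trans h2.symm
  · intro i n u
    have h1 := congrArg (fun μ => μ {u}) (Piid_law i n)
    rw [Measure.map_apply _ (measurableSet_singleton u), kap_apply] at h1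
    · have e1 : {ω' : ℤ → ℝ × Bool | ∀ j : Fin n, fblk (fun k : Fin 4 => ω' (i + j + k)) = u j}
          = (fun (ω : ℤ → ℝ × Bool) (j : Fin n) =>
            fblk (fun k : Fin 4 => ω (i + j + k))) ⁻¹' {u} := by
        ext ω
        simp [funext_iff]
      rw [e1, h1]
      simp only [Set.mem_singleton_iff, funext_iff]
    · apply measurable_pi_lambda
      intro j
      exact measurable_fblk.comp (by fun_prop)
  · intro Ω _ P X _ hX
    apply law_ext
    · exact fun i => (measurable_of_countable iota).comp (hX.measurable i)
    · intro i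
      exact measurable_fblk.comp (by fun_prop)
    · intro i n
      rw [coloring_law hX, Piid_law]

end Pool.Agent.Results.MP_885716_pr.FourBlock
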